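import Pool.Agent.helper61.Y2.Spec

/-! # Row y2:U3 -/

set_option autoImplicit false

namespace H61.Y2

open H61.Yorioka Cardinal

theorem U3_fin (T : Set (List Bool)) (n : ℕ) : {t | t ∈ T ∧ t.length < n}.Finite :=
  (List.finite_length_lt Bool n).subset fun _ ht => ht.2

theorem U3 : U3_stmt := by
  intro f u T _ hT
  classical
  obtain ⟨m, hm⟩ := hT 2
  refine ⟨m, fun j hj => ?_⟩
  set n : ℕ := f (KK (j + u j + 1)) with hn
  have h1 : (BT f u T j).card ≤ cn T n := by
    have hfin := U3_fin T n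
    have h2 : BT f u T j ⊆ hfin.toFinset.image (fun t => (t.drop (2 ^ j)).take (f (KK j))) := by
      intro s hs
      unfold BT at hs
      obtain ⟨-, t, htT, -, ht2, ht3⟩ := Finset.mem_filter.1 hs
      rw [Finset.mem_image]
      exact ⟨t, by rw [Set.Finite.mem_toFinset]; exact ⟨htT, ht2⟩, ht3⟩
    refine (Finset.card_le_card h2).trans (Finset.card_image_le.trans ?_)
    unfold cn
    rw [Set.ncard_eq_toFinset_card _ hfin]
  have h3 : m ≤ KK (j + u j + 1) := by
    have h4 : j + u j + 1 < 2 ^ (j + u j + 1) := Nat.lt_two_pow_self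
    have h5 : 2 ^ (j + u j + 1) < KK (j + u j + 1) := Nat.lt_two_pow_self
    omega
  have h4 := hm _ h3
  have h5 : KK (j + u j + 1) = KK (j + u j) ^ 2 := by
    unfold KK
    rw [← pow_mul, pow_succ 2 (j + u j)]
  rw [h5] at h4
  rw [← h5, ← hn] at h4
  exact h1.trans (by
    by_contra hcon
    have h6 : KK (j + u j) ^ 2 < cn T n ^ 2 := Nat.pow_lt_pow_left (not_le.1 hcon) (by norm_num)
    rw [h5] at h4
    omega)

end H61.Y2
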